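import Pool.Agent.H18.KC.Stmts

/-!
# Module KDB: the doubling inequality for the tensors `P_m h`
-/

set_option autoImplicit false

open Finset

namespace Pool.Agent.H72.KC.KDB

open Pool.Agent.H18.KC

theorem pos_inj (k i j : ℕ) (hi : i < k + 1) (hj : j < k + 1) (h : pos k i = pos k j) :
    i = j := by
  have h1 := congrArg Fin.val h
  simp only [pos, Fin.val_ofNat] at h1
  rwa [Nat.mod_eq_of_lt hi, Nat.mod_eq_of_lt hj] at h1

theorem upN_W (hWRL : WRLStmt) (ι E : Type) [Fintype ι] [NormedAddCommGroup E]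
    [InnerProductSpace ℝ E] (t Q : ℝ) (D : Dat ι E t Q) (h0 : E) (h : inner ℝ D.e h0 = 0)
    (k m : ℕ) (hm : 1 ≤ m) : ∀ n : ℕ, m + n ≤ k + 1 →
    UpN (rho ι (k + 1)) (pos k) m n (D.W h0 (k + 1) m) = D.W h0 (k + 1) (m + n) := by
  intro n
  induction n with
  | zero => intro _; rfl
  | succ n ih =>
    intro hn
    show Up (rho ι (k + 1)) (pos k) (m + n) (UpN (rho ι (k + 1)) (pos k) m n _) = _
    rw [ih (by omega)]
    exact (hWRL ι E t Q D h0 h k (m + n) (by omega) (by omega)).symm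

theorem fact_le (m : ℕ) : ((Nat.factorial (2 * m) : ℕ) : ℝ) ^ 2 ≤
    16 ^ m * (Nat.factorial m : ℝ) ^ 4 := by
  have h1 : Nat.factorial (2 * m) = Nat.centralBinom m * (Nat.factorial m) ^ 2 := by
    have := Nat.choose_mul_factorial_mul_factorial (show m ≤ 2 * m by omega)
    rw [Nat.centralBinom, ← this]
    have e : 2 * m - m = m := by omega
    rw [e]
    ring
  have h2 : (Nat.centralBinom m : ℝ) ≤ 4 ^ m := by
    have h3 : Nat.centralBinom m ≤ 4 ^ m := by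
      rw [Nat.centralBinom]
      calc (2 * m).choose m ≤ 2 ^ (2 * m) := Nat.choose_le_two_pow _ _
        _ = 4 ^ m := by rw [pow_mul]; norm_num
    exact_mod_cast h3
  rw [h1]
  push_cast
  have h4 : (Nat.centralBinom m : ℝ) ^ 2 ≤ 16 ^ m := by
    calc (Nat.centralBinom m : ℝ) ^ 2 ≤ (4 ^ m) ^ 2 :=
          pow_le_pow_left₀ (Nat.cast_nonneg _) h2 2
      _ = 16 ^ m := by rw [← pow_mul, mul_comm, pow_mul]; norm_num
  calc ((Nat.centralBinom m : ℝ) * (Nat.factorial m : ℝ) ^ 2) ^ 2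
      = (Nat.centralBinom m : ℝ) ^ 2 * (Nat.factorial m : ℝ) ^ 4 := by ring
    _ ≤ 16 ^ m * (Nat.factorial m : ℝ) ^ 4 := mul_le_mul_of_nonneg_right h4 (by positivity)

theorem kdb_thm (hDBL : DBLStmt) (hNSY : NSYStmt) (hWRL : WRLStmt) (hWIN : WINStmt)
    (hWSY : WSYStmt) : KDBStmt := by
  intro ι E _ _ _ t Q D L h0 h hL hLA k m hm hmk
  have hD := hDBL (Fin (k + 1)) (EuclideanSpace ℝ (Fin (k + 1) → ι)) (rho ι (k + 1)) (pos k) m
    (D.W h0 (k + 1) m) (fun σ v => norm_rho ι (k + 1) σ v)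
    (fun i j hi hj => pos_inj k i j (by omega) (by omega)) hm
    (hWIN ι E t Q D h0 k m (by omega))
  rw [upN_W hWRL ι E t Q D h0 h k m hm m (by omega)] at hD
  have e2 : m + m = 2 * m := by ring
  rw [e2] at hD
  have hf : (0 : ℝ) < (Nat.factorial m : ℝ) := by exact_mod_cast Nat.factorial_pos m
  have hf2 : (0 : ℝ) < (Nat.factorial (2 * m) : ℝ) := by
    exact_mod_cast Nat.factorial_pos (2 * m)
  -- the sum
  have hsum : ∑ j ∈ Ico m (3 * m - 1), ‖D.W h0 (k + 1) m -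
      rho ι (k + 1) (Equiv.swap (pos k j) (pos k (j + 1))) (D.W h0 (k + 1) m)‖ ^ 2 ≤
      (Nat.factorial m : ℝ) ^ 2 * (Q ^ (m - 1) *
        ∑ j ∈ Ico m (3 * m - 1), L ^ (j - m) * D.R h0 (k - 1 - j + 2) 0) := by
    rw [Finset.mul_sum, Finset.mul_sum]
    refine Finset.sum_le_sum fun j hj => ?_
    rw [Finset.mem_Ico] at hj
    obtain ⟨m', rfl⟩ : ∃ m', m = m' + 1 := ⟨m - 1, by omega⟩
    have h1 := hWSY ι E t Q D h0 h k m' j (by omega) (by omega)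
    have h2 := hNSY ι E t Q D L h0 h hL hLA (k - m') (j - (m' + 1)) (by omega)
    have e3 : k - m' - (j - (m' + 1)) = k - 1 - j + 2 := by omega
    rw [e3] at h2
    have e4 : m' + 1 - 1 = m' := by omega
    rw [e4]
    have hQ : 0 ≤ Q ^ m' := pow_nonneg (le_trans zero_le_one D.hQ) _
    calc ‖D.W h0 (k + 1) (m' + 1) - rho ι (k + 1) (Equiv.swap (pos k j) (pos k (j + 1)))
          (D.W h0 (k + 1) (m' + 1))‖ ^ 2
        ≤ (Nat.factorial (m' + 1) : ℝ) ^ 2 * Q ^ m' * D.R h0 (k - m') (j - (m' + 1)) := h1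
      _ ≤ (Nat.factorial (m' + 1) : ℝ) ^ 2 * Q ^ m' *
          (L ^ (j - (m' + 1)) * D.R h0 (k - 1 - j + 2) 0) :=
        mul_le_mul_of_nonneg_left h2 (mul_nonneg (by positivity) hQ)
      _ = _ := by ring
  -- division
  rw [div_le_iff₀ (by positivity)]
  have h5 := fact_le m
  have hA : 2 / (Nat.factorial m : ℝ) ^ 2 * ‖D.W h0 (k + 1) (2 * m)‖ ^ 2 ≤
      2 * 16 ^ m * (‖D.W h0 (k + 1) (2 * m)‖ ^ 2 / (Nat.factorial (2 * m) : ℝ) ^ 2) *
        (Nat.factorial m : ℝ) ^ 2 := by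
    have h6 : 2 / (Nat.factorial m : ℝ) ^ 2 ≤
        2 * 16 ^ m / (Nat.factorial (2 * m) : ℝ) ^ 2 * (Nat.factorial m : ℝ) ^ 2 := by
      rw [div_le_iff₀ (by positivity), div_mul_eq_mul_div, div_mul_eq_mul_div,
        le_div_iff₀ (by positivity)]
      calc 2 * (Nat.factorial (2 * m) : ℝ) ^ 2 ≤ 2 * (16 ^ m * (Nat.factorial m : ℝ) ^ 4) := by
            linarith
        _ = 2 * 16 ^ m * (Nat.factorial m : ℝ) ^ 2 * (Nat.factorial m : ℝ) ^ 2 := by ring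
    calc 2 / (Nat.factorial m : ℝ) ^ 2 * ‖D.W h0 (k + 1) (2 * m)‖ ^ 2
        ≤ (2 * 16 ^ m / (Nat.factorial (2 * m) : ℝ) ^ 2 * (Nat.factorial m : ℝ) ^ 2) *
          ‖D.W h0 (k + 1) (2 * m)‖ ^ 2 := mul_le_mul_of_nonneg_right h6 (sq_nonneg _)
      _ = _ := by ring
  have hB := mul_le_mul_of_nonneg_left hsum (show (0 : ℝ) ≤ (10 ^ 5) ^ m by positivity)
  calc ‖D.W h0 (k + 1) m‖ ^ 2
      ≤ 2 / (Nat.factorial m : ℝ) ^ 2 * ‖D.W h0 (k + 1) (2 * m)‖ ^ 2 +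
        (10 ^ 5) ^ m * ∑ j ∈ Ico m (3 * m - 1), ‖D.W h0 (k + 1) m -
          rho ι (k + 1) (Equiv.swap (pos k j) (pos k (j + 1))) (D.W h0 (k + 1) m)‖ ^ 2 := hD
    _ ≤ 2 * 16 ^ m * (‖D.W h0 (k + 1) (2 * m)‖ ^ 2 / (Nat.factorial (2 * m) : ℝ) ^ 2) *
        (Nat.factorial m : ℝ) ^ 2 + (10 ^ 5) ^ m * ((Nat.factorial m : ℝ) ^ 2 * (Q ^ (m - 1) *
        ∑ j ∈ Ico m (3 * m - 1), L ^ (j - m) * D.R h0 (k - 1 - j + 2) 0)) := add_le_add hA hB
    _ = _ := by ring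

end Pool.Agent.H72.KC.KDB
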